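import Pool.Agent.R432.JG.Common

/-!
# Rank zero and the `3`-primary part of `Ш` over every field `ℚ(∛l : l ∈ M)`, for an exact proportion of
the curves, and over infinite towers of these fields

`E_D : y² + D y = x³` over `ℚ` (`3`-isogenous to `x³ + y³ = D`).  `M` is any finite set of primes
`≡ 1` modulo `9`, `n = #M`, and `L = ℚ(∛l : l ∈ M)`, a number field of degree `3 ^ n` (not Galois over
`ℚ` if `n > 0`).  `D` runs through the squarefree numbers, prime to `3` and to `M`, not `±1` modulo `9`,
that are divisible by exactly one prime `2` modulo `3`.  We prove: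

* the proportion of the `D` for which ALL the `3 ^ n` cubic twists `E_{D'}`, `D' = D ∏ l^{t_l}`,
  `t_l = 0, 1, 2`, have finitely many rational points and `Ш(E_{D'} / ℚ)[3^∞] = 0` tends exactly to
  `c ^ {3 ^ n}`, `c = ∏_{i ≥ 1} (1 - 3^{-i}) = 0.5601...`;
* for these `D` the group `E_D(L)` is finite and the `3`-primary part of `Ш(E_D / L)` is killed by
  `[L : ℚ]`; the same is true over all the fields `L(∛l : l ∈ S)`, `S` an admissible finite set of
  primes (`l ≡ 1` modulo `9`, exactly one prime factor of `D ∏_{m ∈ M} m` is not a cube modulo `l`, it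
  divides `D`, `l` is a cube modulo the other prime factors, and the elements of `S` are cubes modulo
  each other); to every admissible set infinitely many primes can be added.

The proof.  (1) `Ш` and points of `E_{D'}` over `ℚ`: the criterion of the library (project CT: the
Laplacian of the weighted graph of the cubic residue symbols of the prime factors of `D'`).  (2) THE
JOINT LAW (project JL, new): the `3 ^ n` matrices of the symbols of the numbers `D'` have in common
almost all their entries.  Their antisymmetric parts and their borders differ, for most `D`, in many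
entries that are determined by the symbols of `l ∈ M` modulo the prime factors of `D`; an abstract
theorem on matrices over `𝔽₃` with the same random part shows that the events `corank = 0` are
independent in the limit.  This is combined with the equidistribution of the symbols of large primes
(bilinear sums) as in project CX.  (3) The descent over `L`: all the twists of `E_D` by the cubic
characters of `L(ω)/ℚ(ω)` are isomorphic over `L(ω)`, and `[L(ω) : ℚ(ω)]` times an element of `Ш` is a
sum of restrictions of elements of the Tate-Shafarevich groups of the twists; the restriction from `L`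
to `L(ω)` is injective on `3`-primary parts.  (4) A prime of `S` is a leaf of all the graphs, so that all
the twists by `M ∪ S` are good if all the twists by `M` are good.

Authors of the parts of project JL: helper962 (matrices), helper159 (matrices of symbols), helper152
(sieve), helper916 (boxes), helper258 (asymptotics), helper432 (the others).
-/

set_option autoImplicit false

namespace Pool.Agent.Results.MP_f50388_nt.FixedCubicRadicalFields

open NumberField
open scoped Classical

/-- The curve `E_D : y² + D y = x³` over `L`. -/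
def curve (D : ℕ) (L : Type) [Field L] : WeierstrassCurve L := ⟨0, 0, (D : L), 0, 0⟩

/-- `D` is squarefree, not divisible by `3`, not `±1` modulo `9`, not divisible by the elements of `M`,
and divisible by exactly one prime that is `2` modulo `3`. -/
def InClass (M : Finset ℕ) (D : ℕ) : Prop :=
  Squarefree D ∧ ¬ 3 ∣ D ∧ D % 9 ≠ 1 ∧ D % 9 ≠ 8 ∧ (∀ l ∈ M, ¬ l ∣ D) ∧
    ∃ q : ℕ, q.Prime ∧ q % 3 = 2 ∧ q ∣ D ∧ ∀ p : ℕ, p.Prime → p ∣ D → p ≠ q → p % 3 = 1

/-- The number `D ∏_{l ∈ M} l ^ (t l)` with exponents `0`, `1`, `2`. -/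
def twist (M : Finset ℕ) (D : ℕ) (t : {l : ℕ // l ∈ M} → ZMod 3) : ℕ :=
  D * ∏ l : {l : ℕ // l ∈ M}, l.1 ^ (t l).val

/-- `E_D(ℚ)` is finite and the `3`-primary part of `Ш(E_D / ℚ)` is zero. -/
def TrivialThree (D : ℕ) : Prop :=
  Finite (curve D ℚ).toAffine.Point ∧
    ∀ (n : ℕ) (x : Pool.Agent.TH841.SH.D.Sha (curve D ℚ)), 3 ^ n • x = 0 → x = 0

/-- All the `3 ^ #M` cubic twists of `E_D` by the products of the elements of `M` have finitely many
rational points and a Tate-Shafarevich group without elements of order `3`. -/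
def Good (M : Finset ℕ) (D : ℕ) : Prop :=
  ∀ t : {l : ℕ // l ∈ M} → ZMod 3, TrivialThree (twist M D t)

/-- `a` is a cube modulo `m`. -/
def IsCubeMod (a m : ℕ) : Prop := ∃ x : ℤ, (m : ℤ) ∣ (a : ℤ) - x ^ 3

/-- `p` is a prime factor of `D` that is not a cube modulo `l`, and `l` and the other prime factors of
`D` and the elements of `M` are cubes modulo each other. -/
def AttachedAt (D : ℕ) (M : Finset ℕ) (l p : ℕ) : Prop :=
  p.Prime ∧ p ∣ D ∧ ¬ IsCubeMod p l ∧
    ∀ r : ℕ, r.Prime → (r ∣ D ∨ r ∈ M) → r ≠ p → IsCubeMod r l ∧ IsCubeMod l r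

/-- Each `l ∈ S` is a prime, `1` modulo `9`, that does not divide `D`, is not in `M` and is attached to a
prime factor of `D`, and the elements of `S` are cubes modulo each other. -/
def Admissible (D : ℕ) (M S : Finset ℕ) : Prop :=
  (∀ l ∈ S, l.Prime ∧ l % 9 = 1 ∧ ¬ l ∣ D ∧ l ∉ M ∧ ∃ p : ℕ, AttachedAt D M l p) ∧
    ∀ l ∈ S, ∀ m ∈ S, l ≠ m → IsCubeMod l m

/-- `L = ℚ(∛l : l ∈ S)`. -/
def Generated (S : Finset ℕ) (L : Type) [Field L] : Prop :=
  ∃ r : ℕ → L, (∀ l ∈ S, r l ^ 3 = (l : L)) ∧ ∀ F : Subfield L, (∀ l ∈ S, r l ∈ F) → F = ⊤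

/-- For every admissible set `S` (in particular for the empty set): for every prime factor `p` of `D`
there are infinitely many primes `l` outside `S`, attached to `p`, such that `S ∪ {l}` is admissible;
there is a number field `L = ℚ(∛l : l ∈ M ∪ S)`, and for each such `L` the degree is `3 ^ #(M ∪ S)`, the
group `E_D(L)` is finite, and every element of the `3`-primary part of `Ш(E_D / L)` is killed by the
degree `3 ^ #(M ∪ S)`. -/
def Towers (M : Finset ℕ) (D : ℕ) : Prop :=
  ∀ S : Finset ℕ, Admissible D M S →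
    (∀ p : ℕ, p.Prime → p ∣ D →
      {l : ℕ | l ∉ S ∧ AttachedAt D M l p ∧ Admissible D M (insert l S)}.Infinite) ∧
    (∃ (L : Type) (_ : Field L) (_ : NumberField L), Generated (M ∪ S) L) ∧
    ∀ (L : Type) [Field L] [NumberField L], Generated (M ∪ S) L →
      Module.finrank ℚ L = 3 ^ (M ∪ S).card ∧ Finite (curve D L).toAffine.Point ∧
        ∀ (n : ℕ) (x : Pool.Agent.TH841.NF.D.Sha (curve D L)), 3 ^ n • x = 0 →
          3 ^ (M ∪ S).card • x = 0

section proof

open Pool.Agent.R432.JG (AdmM Cl cl_iff triv_iff tw_cls pre_of overL moreM exists_gen)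

theorem adm_of {D : ℕ} {M S : Finset ℕ} (h : Admissible D M S) :
    ∃ a : ℕ → ℕ, AdmM D M a S := by
  have h1 : ∀ l : ℕ, ∃ p : ℕ, l ∈ S → AttachedAt D M l p := by
    intro l
    by_cases hl : l ∈ S
    · obtain ⟨-, -, -, -, p, hp⟩ := h.1 l hl
      exact ⟨p, fun _ => hp⟩
    · exact ⟨0, fun h' => absurd h' hl⟩
  choose a ha using h1
  exact ⟨a, fun l hl => (h.1 l hl).1, fun l hl => (h.1 l hl).2.1, fun l hl => (h.1 l hl).2.2.1,
    fun l hl => (h.1 l hl).2.2.2.1, fun l hl => (ha l hl).1, fun l hl => (ha l hl).2.1,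
    fun l hl => (ha l hl).2.2.1, fun l hl => (ha l hl).2.2.2, h.2⟩

theorem of_adm {D : ℕ} {M S : Finset ℕ} {a : ℕ → ℕ} (h : AdmM D M a S) : Admissible D M S :=
  ⟨fun l hl => ⟨h.pr l hl, h.nine l hl, h.nd l hl, h.nM l hl, a l, h.ap l hl, h.ad l hl, h.att l hl,
    h.free l hl⟩, h.pw⟩

theorem good_iff {M : Finset ℕ} (hM : ∀ l ∈ M, l.Prime ∧ l % 9 = 1) {D : ℕ} (hD : Cl M D)
    (t : {l : ℕ // l ∈ M} → ZMod 3) :
    TrivialThree (twist M D t) ↔ Pool.Agent.Y703.CT.NoSplit (Pool.Agent.R432.JG.twN D M t) :=
  triv_iff (tw_cls (t := t) hD.2.1 (pre_of hM hD))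

/-- The theorem for one `D`. -/
theorem towers {M : Finset ℕ} (hM : ∀ l ∈ M, l.Prime ∧ l % 9 = 1) {D : ℕ} (hD : InClass M D)
    (hN : Good M D) : Towers M D := by
  have hC : Cl M D := (cl_iff M D).2 hD
  intro S hS
  obtain ⟨a, hA⟩ := adm_of hS
  refine ⟨fun p hp hpD => ?_, exists_gen (M ∪ S), fun L _ _ hL => ?_⟩
  · refine (moreM hM hC hA hp hpD).mono ?_
    rintro l ⟨h1, h2⟩
    refine ⟨h1, ?_, of_adm h2⟩
    have hl : l ∈ insert l S := Finset.mem_insert_self l S
    have h3 := h2.att l hl
    have h4 := h2.free l hl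
    simp only [if_true] at h3 h4
    exact ⟨hp, hpD, h3, h4⟩
  · obtain ⟨r, hr1, hr2⟩ := hL
    obtain ⟨h1, h2, h3, -⟩ := overL hM hC hA (fun t => (good_iff hM hC t).1 (hN t)) r hr1 hr2
    exact ⟨h1, h2, h3⟩

end proof

open Pool.Agent.R432.JG (Cl cl_iff)

/-- **Main theorem.**  For every finite set `M` of primes `≡ 1` modulo `9`, and
`c = ∏_{i ≥ 1} (1 - 3^{-i}) > 0.56`: the number of the `D ≤ X` in the class is at least
`c' X / √(log X)`; the proportion of the `D` in the class such that all the `3 ^ #M` twists of `E_D`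
have finitely many rational points and `Ш[3^∞] = 0` tends to `c ^ (3 ^ #M)`; and all these `D` have the
property `Towers`. -/
theorem result (M : Finset ℕ) (hM : ∀ l ∈ M, l.Prime ∧ l % 9 = 1) :
    (∃ c' : ℝ, 0 < c' ∧ ∃ X₀ : ℕ, ∀ X : ℕ, X₀ ≤ X →
      c' * X / Real.sqrt (Real.log X) ≤
        (((Finset.Icc 1 X).filter fun D => InClass M D).card : ℝ)) ∧
    (0.56 : ℝ) < ∏' i : ℕ, (1 - (1 / 3 : ℝ) ^ (i + 1)) ∧
    Filter.Tendsto (fun X : ℕ =>
      (((Finset.Icc 1 X).filter fun D => InClass M D ∧ Good M D).card : ℝ) /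
        (((Finset.Icc 1 X).filter fun D => InClass M D).card : ℝ)) Filter.atTop
      (nhds ((∏' i : ℕ, (1 - (1 / 3 : ℝ) ^ (i + 1))) ^ (3 ^ M.card))) ∧
    ∀ D : ℕ, InClass M D → Good M D → Towers M D := by
  have e1 : ∀ X : ℕ, (Finset.Icc 1 X).filter (fun D => InClass M D) =
      (Finset.Icc 1 X).filter fun D => Cl M D := fun X =>
    Finset.filter_congr fun D _ => (cl_iff M D).symm
  have e2 : ∀ X : ℕ, (Finset.Icc 1 X).filter (fun D => InClass M D ∧ Good M D) =
      (Finset.Icc 1 X).filter fun D => Cl M D ∧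
        Pool.Agent.R432.JG.AG M Finset.univ D := fun X =>
    Finset.filter_congr fun D _ => by
      rw [show InClass M D ↔ Cl M D from (cl_iff M D).symm]
      refine and_congr_right fun hC => ?_
      unfold Good Pool.Agent.R432.JG.AG
      exact ⟨fun h t _ => (good_iff hM hC t).1 (h t),
        fun h t => (good_iff hM hC t).2 (h t (Finset.mem_univ t))⟩
  have hcard : (Finset.univ : Finset ({l : ℕ // l ∈ M} → ZMod 3)).card = 3 ^ M.card := by
    rw [Finset.card_univ, Fintype.card_fun, ZMod.card, Fintype.card_coe]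
  refine ⟨?_, Pool.Agent.R432.JG.c3_gt, ?_, fun D hD hN => towers hM hD hN⟩
  · simp only [e1]
    exact Pool.Agent.R432.JG.low hM
  · simp only [e1, e2]
    have h := Pool.Agent.R432.JG.law_all hM Finset.univ
    rw [hcard] at h
    exact h

end Pool.Agent.Results.MP_f50388_nt.FixedCubicRadicalFields
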