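import Pool.Agent.Results.MP_cd906c_nt.MultiquadraticX49
import Pool.Agent.R426.QM.TopM

/-!
# The modular curve `X_0(49)` over a positive proportion of the quadratic extensions of `ℚ(√-7)`, and of
# its multiquadratic extensions

Let `E : y² + x y = x³ - x² - 2 x - 1` be the elliptic curve `X_0(49)` over `ℚ`, let `K = ℚ(√-7)`, and let
`L = K(√D)` be a quadratic extension of `K`, where `D` is a squarefree integer of `K`, congruent to `1`
modulo `4` and prime to `√-7`. The absolute discriminant of `L` is `49` times the norm of `D`. The field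
`L` is in general a quartic field whose Galois closure is dihedral of degree eight. We prove, without
any hypothesis, that for a proportion of exactly `c2 = ∏_{i ≥ 1} (1 - 2^(-i)) = 0.288...` of these fields
(ordered by the discriminant; they are a positive proportion of all the quadratic extensions of `K`) the
rank conjecture holds for `E` over `L`: the L-series of `E` over `L` has a meromorphic continuation, and its
order at `s = 1` is the rank of `E(L)`, namely zero; moreover the 2-primary part of `Ш(E/L)` is finite and
killed by `2`.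

More generally let `L₀ = K(√d_1, …, √d_n)` be a multiquadratic extension of `K` of degree `2 ^ n`, with `d_i` of
the kind above, and let `E_M` be the twist of `E` by an integer `M` of this kind, prime to the `d_i`,
such that for the twists of `E_M` by the `2 ^ n` products of the `d_i` the groups `E_N(K)` are finite and
`Ш(E_N/K)` has no element of order two (`AllNoSelmer a d M`; this holds for a positive proportion of the
`M`, see `MP_cd906c_nt/MultiquadraticX49`, and for `n = 0`, `M = 1`). Then for a proportion of exactly
`c2 ^ (2 ^ n)` of the quadratic extensions `L = L₀(√D)`: `E_M(L)` is finite, the rank conjecture holds for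
`E_M` over `L`, and the 2-primary part of `Ш(E_M/L)` is finite and killed by `2 ^ (n + 1)`. So the rank
remains zero, and the order of the L-function remains zero, in an exact proportion of all these
quadratic extensions of a given field.
-/

set_option autoImplicit false

namespace Pool.Agent.Results.MP_f50388_nt.FixedCurveX49

open NumberField IsDedekindDomain
open Pool.Agent.Results.MP_cd906c_nt.MultiquadraticX49 (curve InClass NoSelmer AllNoSelmer Independent
  OverExtensions c2)

/-- The `D` of norm at most `X` in the class that are prime to `M` and to all the `d i`. -/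
def fields {K : Type} [Field K] [NumberField K] (a : 𝓞 K) {n : ℕ} (d : Fin n → 𝓞 K) (M : 𝓞 K)
    (X : ℕ) : Set (𝓞 K) :=
  {D | Ideal.absNorm (Ideal.span {D}) ≤ X ∧ InClass a D ∧ IsCoprime D M ∧ ∀ i, IsCoprime D (d i)}

/-- Those `D` for which the twists `E_N`, `N` in the class, by all the products of `M D` with some of the
`d i`, up to squares, have finitely many points over `K` and no element of order two in `Ш(E_N/K)`. -/
def goodFields {K : Type} [Field K] [NumberField K] (a : 𝓞 K) {n : ℕ} (d : Fin n → 𝓞 K) (M : 𝓞 K)
    (X : ℕ) : Set (𝓞 K) :=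
  {D ∈ fields a d M X | AllNoSelmer a d (M * D)}

section proof

open Filter
open Pool.Agent.R426
open Pool.Agent.R426.QM
open Pool.Agent.Results.MP_cd906c_nt

variable {K : Type} [Field K] [NumberField K]

/-- the proportion -/
theorem proportion {a : 𝓞 K} (ha : a ^ 2 = a - 2) (hK : Module.finrank ℚ K = 2) {n : ℕ}
    (d : Fin n → 𝓞 K) (hd : ∀ i, InClass a (d i)) (hind : Independent d) {M : 𝓞 K}
    (hM : InClass a M) (hMd : ∀ i, IsCoprime M (d i)) :
    Tendsto (fun X : ℕ => ((goodFields a d M X).ncard : ℝ) / ((fields a d M X).ncard : ℝ)) atTop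
      (nhds (c2 ^ (2 ^ n))) ∧
    ∃ δ : ℝ, 0 < δ ∧ ∀ᶠ X : ℕ in atTop, δ * X ≤ ((goodFields a d M X).ncard : ℝ) := by
  have h := densKM ha hK d hd hind hM hMd
  have e : ∀ X : ℕ, goodFields a d M X = {D ∈ famM a d M X | AllT a d (M * D)} := by
    intro X
    ext D
    exact and_congr Iff.rfl (MultiquadraticX49.all_iff ha hK d (M * D))
  simp only [e]
  exact h

/-- one more generator -/
theorem step {a : 𝓞 K} (ha : a ^ 2 = a - 2) (hK : Module.finrank ℚ K = 2) {n : ℕ}
    {d : Fin n → 𝓞 K} (hd : ∀ i, InClass a (d i)) (hind : Independent d) {M : 𝓞 K}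
    (hM : InClass a M) (hMd : ∀ i, IsCoprime M (d i)) (hA : AllNoSelmer a d M) {D : 𝓞 K}
    (hD : InClass a D) (hDM : IsCoprime D M) (hDd : ∀ i, IsCoprime D (d i)) (hu : ¬ IsUnit D)
    (hA' : AllNoSelmer a d (M * D)) :
    OverExtensions (Fin.cons D d : Fin (n + 1) → 𝓞 K) M := by
  refine MultiquadraticX49.extension ha hK _ (fun i => ?_)
    (ind_consK ha hK hd hind hD hDd hu) hM (fun i => ?_) ?_
  · refine Fin.cases ?_ (fun j => ?_) i
    · rw [Fin.cons_zero]
      exact hD
    · rw [Fin.cons_succ]
      exact hd j
  · refine Fin.cases ?_ (fun j => ?_) i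
    · rw [Fin.cons_zero]
      exact hDM.symm
    · rw [Fin.cons_succ]
      exact hMd j
  · exact (MultiquadraticX49.all_iff ha hK _ M).2 (all_cons
      ((MultiquadraticX49.all_iff ha hK d M).1 hA)
      ((MultiquadraticX49.all_iff ha hK d (M * D)).1 hA'))

end proof

/-- **Main theorem.** Let `K = ℚ(√-7)`, that is, a number field of degree two with an integer `a` such
that `a² = a - 2`. Let `d_1, …, d_n` be squarefree integers of `K`, congruent to `1` modulo `4` and prime to
`√-7 = 2 a - 1`, such that no nonempty product of some of them is a square in `K`, and let `M` have the same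
properties as the `d_i` and be prime to them. Suppose that the twists of `E = X_0(49)` by the products of
`M` with some of the `d_i` satisfy `NoSelmer` over `K` (`AllNoSelmer a d M`); this is so for `n = 0`, `M = 1`,
when `E_M` is the curve `E` over `ℚ`.
(1) Let `D ≠ 1` have the same properties, prime to `M` and to the `d_i`, and suppose that also the twists
by the products of `M D` with some of the `d_i` satisfy `NoSelmer` over `K`. Then for
`L = K(√D, √d_1, …, √d_n)`, of degree `2 ^ (n + 1)` over `K`: `E_M(L)` is finite, the rank conjecture holds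
for `E_M` over `L`, a product of `L(E_M/L, s)` and finitely many Euler polynomials is entire and not zero
at `1`, and the 2-primary part of `Ш(E_M/L)` is finite and killed by `2 ^ (n + 1)`.
(2) The hypothesis in (1) holds for a proportion of exactly `c2 ^ (2 ^ n)` of the `D`, ordered by the norm,
where `0.288 < c2 < 0.289`, and for at least `δ X` of the `D` of norm at most `X`, for all large `X`. -/
theorem result (K : Type) [Field K] [NumberField K] (a : 𝓞 K) (ha : a ^ 2 = a - 2)
    (hK : Module.finrank ℚ K = 2) :
    0.288 < c2 ∧ c2 < 0.289 ∧ (∀ d : Fin 0 → 𝓞 K, AllNoSelmer a d 1) ∧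
    ∀ (n : ℕ) (d : Fin n → 𝓞 K) (M : 𝓞 K), (∀ i, InClass a (d i)) → Independent d → InClass a M →
      (∀ i, IsCoprime M (d i)) → AllNoSelmer a d M →
      (∀ D : 𝓞 K, InClass a D → IsCoprime D M → (∀ i, IsCoprime D (d i)) → ¬ IsUnit D →
        AllNoSelmer a d (M * D) → OverExtensions (Fin.cons D d : Fin (n + 1) → 𝓞 K) M) ∧
      Filter.Tendsto (fun X : ℕ => ((goodFields a d M X).ncard : ℝ) / ((fields a d M X).ncard : ℝ))
        Filter.atTop (nhds (c2 ^ (2 ^ n))) ∧
      ∃ δ : ℝ, 0 < δ ∧ ∀ᶠ X : ℕ in Filter.atTop, δ * X ≤ ((goodFields a d M X).ncard : ℝ) := by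
  obtain ⟨-, -, -, h3, h4⟩ := Pool.Agent.R426.QK.MOM.t_C2
  refine ⟨h3, h4, fun d =>
    (Pool.Agent.Results.MP_cd906c_nt.MultiquadraticX49.all_iff ha hK d 1).2
      (Pool.Agent.R426.QM.all_one ha hK d), fun n d M hd hind hM hMd hA => ?_⟩
  obtain ⟨h1, h2⟩ := proportion ha hK d hd hind hM hMd
  exact ⟨fun D hD hDM hDd hu hA' => step ha hK hd hind hM hMd hA hD hDM hDd hu hA', h1, h2⟩

end Pool.Agent.Results.MP_f50388_nt.FixedCurveX49
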